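import Pool.Agent.Y677.KU.LinIcc

set_option autoImplicit false

/-!
# Oppermann intervals: numbers with at most three prime factors in all residue classes

In both intervals `[n ^ 2 - n, n ^ 2]` and `[n ^ 2, n ^ 2 + n]`, `n` large, every reduced residue class
modulo every `q ≤ n ^ (1 / 5 - ε)` contains at least `κ n / (φ(q) log n)` numbers with at most three
prime factors, all larger than the tenth root of the number, also in long arithmetic progressions with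
difference at most `q (log n) ^ B`; for every modulus `q ≤ n ^ (1 - ε)` all but at most
`ε n / (φ(q) log n)` of the primes of a class in such an interval are in such progressions of primes.
-/

namespace Pool.Agent.Results.MP_a8fbd7_nt.AlmostPrimesInClasses

open Finset Filter

/-- The interval `[n ^ 2 - n, n ^ 2]`. -/
def Lo (n : ℕ) : Set ℕ := Set.Icc (n ^ 2 - n) (n ^ 2)

/-- The interval `[n ^ 2, n ^ 2 + n]`. -/
def Hi (n : ℕ) : Set ℕ := Set.Icc (n ^ 2) (n ^ 2 + n)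

/-- The `m ≡ a (mod q)` all of whose prime factors are larger than `m ^ (1 / s)`. -/
def R (q a s : ℕ) : Set ℕ :=
  {m | m ≡ a [MOD q] ∧ ∀ p : ℕ, p.Prime → p ∣ m → (m : ℝ) ^ (1 / (s : ℝ)) < (p : ℝ)}

/-- The `m ≡ a (mod q)` with at most `r` prime factors, all larger than `m ^ (1 / (3 r + 1))`. -/
def P (q a r : ℕ) : Set ℕ := {m | m ∈ R q a (3 * r + 1) ∧ m.primeFactorsList.length ≤ r}

/-- `m` is a term of an `l`-term arithmetic progression in `A` with difference at most `D`. -/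
def InP (A : Set ℕ) (l : ℕ) (D : ℝ) (m : ℕ) : Prop :=
  ∃ u d : ℕ, 1 ≤ d ∧ (d : ℝ) ≤ D ∧ (∀ i < l, u + i * d ∈ A) ∧ ∃ i < l, m = u + i * d

/-- from intervals `[x, x + y]` to the two intervals of the problem -/
theorem transfer (θ : ℝ) (hθ : 0 < θ) (hθ2 : θ ≤ 1 / 2) (Q : ℕ → ℕ → ℕ → ℕ → Prop)
    (h : ∀ᶠ x : ℕ in atTop, ∀ q a y : ℕ, 1 ≤ q → Nat.Coprime a q →
      (q : ℝ) * (x : ℝ) ^ θ ≤ y → y ≤ x → Q x q a y) :
    ∀ᶠ n : ℕ in atTop, (n ^ 2 - n + n = n ^ 2 ∧ (1 : ℝ) ≤ Real.log n ∧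
      Real.log n ≤ Real.log ((n ^ 2 - n : ℕ) : ℝ) ∧ Real.log ((n ^ 2 - n : ℕ) : ℝ) ≤ Real.log n ^ 2 ∧
      Real.log ((n ^ 2 - n : ℕ) : ℝ) ≤ 2 * Real.log n ∧ Real.log n ≤ Real.log ((n ^ 2 : ℕ) : ℝ) ∧
      Real.log ((n ^ 2 : ℕ) : ℝ) ≤ Real.log n ^ 2 ∧ Real.log ((n ^ 2 : ℕ) : ℝ) ≤ 2 * Real.log n) ∧
      ∀ q a : ℕ, 1 ≤ q → Nat.Coprime a q → (q : ℝ) ≤ (n : ℝ) ^ (1 - 2 * θ) →
        Q (n ^ 2 - n) q a n ∧ Q (n ^ 2) q a n := by
  obtain ⟨X₀, hX₀⟩ := eventually_atTop.1 h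
  have hlog := Real.tendsto_log_atTop.comp (tendsto_natCast_atTop_atTop (R := ℝ))
  filter_upwards [eventually_ge_atTop (X₀ + 3), hlog.eventually_ge_atTop 2] with n hn hl
  simp only [Function.comp] at hl
  have hn3 : 3 ≤ n := by omega
  have hn3r : (3 : ℝ) ≤ n := by exact_mod_cast hn3
  have hn0 : (0 : ℝ) < n := by linarith
  have hsq : n ^ 2 = n * n := sq n
  have h1 : 2 * n ≤ n ^ 2 := by nlinarith
  have h2 : ((n ^ 2 : ℕ) : ℝ) = (n : ℝ) ^ 2 := by push_cast; rfl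
  have hlsq : Real.log ((n ^ 2 : ℕ) : ℝ) = 2 * Real.log n := by
    rw [h2, Real.log_pow]
    norm_num
  have h3 : (n : ℝ) ≤ ((n ^ 2 - n : ℕ) : ℝ) := by exact_mod_cast (show n ≤ n ^ 2 - n by omega)
  have h4 : ((n ^ 2 - n : ℕ) : ℝ) ≤ ((n ^ 2 : ℕ) : ℝ) := by
    exact_mod_cast (show n ^ 2 - n ≤ n ^ 2 by omega)
  have h5 : Real.log n ≤ Real.log ((n ^ 2 - n : ℕ) : ℝ) := Real.log_le_log hn0 h3
  have h6 : Real.log ((n ^ 2 - n : ℕ) : ℝ) ≤ 2 * Real.log n := by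
    rw [← hlsq]
    exact Real.log_le_log (by linarith) h4
  have h7 : 2 * Real.log n ≤ Real.log n ^ 2 := by nlinarith
  refine ⟨⟨by omega, by linarith, h5, by linarith, h6, by rw [hlsq]; linarith, by rw [hlsq]; exact h7,
    hlsq.le⟩, ?_⟩
  intro q a hq ha hqn
  have h8 : ∀ x : ℕ, x ≤ n ^ 2 → (q : ℝ) * (x : ℝ) ^ θ ≤ n := by
    intro x hx
    have e1 : (x : ℝ) ^ θ ≤ (n : ℝ) ^ (2 * θ) := by
      calc (x : ℝ) ^ θ ≤ (((n ^ 2 : ℕ) : ℝ)) ^ θ :=
            Real.rpow_le_rpow (by positivity) (by exact_mod_cast hx) hθ.le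
        _ = (n : ℝ) ^ (2 * θ) := by
            rw [h2, ← Real.rpow_natCast, ← Real.rpow_mul hn0.le]
            norm_num
    calc (q : ℝ) * (x : ℝ) ^ θ ≤ (n : ℝ) ^ (1 - 2 * θ) * (n : ℝ) ^ (2 * θ) :=
          mul_le_mul hqn e1 (by positivity) (by positivity)
      _ = n := by rw [← Real.rpow_add hn0, sub_add_cancel, Real.rpow_one]
  exact ⟨hX₀ _ (by omega) q a n hq ha (h8 _ (by omega)) (by omega),
    hX₀ _ (by omega) q a n hq ha (h8 _ le_rfl) (by omega)⟩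

/-- **Oppermann intervals: numbers with at most three prime factors in all residue classes.** -/
theorem result :
    (∀ q a s r p : ℕ, 2 ≤ s → 1 ≤ r → p.Prime → p ≡ a [MOD q] → p ∈ R q a s ∧ p ∈ P q a r) ∧
    (∀ (r : ℕ) (θ : ℝ), 3 ≤ r → 4 / (3 * r + 1) < θ → θ ≤ 1 / 2 →
      (∃ κ : ℝ, 0 < κ ∧ ∀ᶠ n : ℕ in atTop, ∀ q a : ℕ, 1 ≤ q → Nat.Coprime a q →
        (q : ℝ) ≤ (n : ℝ) ^ (1 - 2 * θ) →
        κ * n / (Nat.totient q * Real.log n) ≤ (P q a r ∩ Lo n).ncard ∧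
        κ * n / (Nat.totient q * Real.log n) ≤ (P q a r ∩ Hi n).ncard) ∧
      ∀ l : ℕ, ∃ B : ℕ, ∀ᶠ n : ℕ in atTop, ∀ q a : ℕ, 1 ≤ q → Nat.Coprime a q →
        (q : ℝ) ≤ (n : ℝ) ^ (1 - 2 * θ) → ∀ I : Set ℕ, I = Lo n ∨ I = Hi n →
        ∃ u d : ℕ, 1 ≤ d ∧ (d : ℝ) ≤ q * Real.log n ^ B ∧ ∀ i < l, u + i * d ∈ P q a r ∩ I) ∧
    ∀ (s : ℕ) (θ : ℝ), 1 ≤ s → 0 < θ → θ ≤ 1 / 2 → ∀ l : ℕ, 2 ≤ l → ∀ ε : ℝ, 0 < ε → ∃ B : ℕ,
      ∀ᶠ n : ℕ in atTop, ∀ q a : ℕ, 1 ≤ q → Nat.Coprime a q → (q : ℝ) ≤ (n : ℝ) ^ (1 - 2 * θ) →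
      ∀ I : Set ℕ, I = Lo n ∨ I = Hi n → ∀ T : Set ℕ, T ⊆ R q a s ∩ I →
        (({m | m ∈ T ∧ ¬ InP T l (q * Real.log n ^ B) m}.ncard : ℕ) : ℝ) ≤
          ε * n / (Nat.totient q * Real.log n) := by
  refine ⟨fun q a s r p hs hr hp hpa => ⟨Pool.Agent.Y677.KU.prime_mem q a s p hs hp hpa,
    Pool.Agent.Y677.KU.prime_mem_P q a r p hr hp hpa⟩, fun r θ hr h1 h2 => ⟨?_, fun l => ?_⟩,
    fun s θ hs hθ h2 l hl ε hε => ?_⟩
  · have hθ0 : 0 < θ := lt_trans (by positivity) h1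
    obtain ⟨κ, hκ, h⟩ := Pool.Agent.Y677.KU.icc_lower r θ (by omega) h1 (by linarith)
    refine ⟨κ / 2, by positivity, ?_⟩
    filter_upwards [transfer θ hθ0 h2 _ h] with n hn q a hq ha hqn
    obtain ⟨⟨g1, g2, g3, g4, g5, g6, g7, g8⟩, g9⟩ := hn
    obtain ⟨g10, g11⟩ := g9 q a hq ha hqn
    have hφ0 : (0 : ℝ) < Nat.totient q := by exact_mod_cast Nat.totient_pos.2 (by omega)
    have hn0 : (0 : ℝ) ≤ n := Nat.cast_nonneg _
    have key : ∀ L : ℝ, Real.log n ≤ L → L ≤ 2 * Real.log n →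
        κ / 2 * n / (Nat.totient q * Real.log n) ≤ κ * n / (Nat.totient q * L) := by
      intro L e1 e2
      rw [div_le_div_iff₀ (by nlinarith) (by nlinarith)]
      have e3 : 0 ≤ κ * n * Nat.totient q := by positivity
      nlinarith
    constructor
    · refine (key _ g3 g5).trans (g10.trans ?_)
      rw [g1]
      exact le_rfl
    · exact (key _ g6 g8).trans g11
  · have hθ0 : 0 < θ := lt_trans (by positivity) h1
    obtain ⟨B, h⟩ := Pool.Agent.Y677.KU.icc_exists r θ (by omega) h1 (by linarith) l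
    refine ⟨2 * B, ?_⟩
    filter_upwards [transfer θ hθ0 h2 _ h] with n hn q a hq ha hqn I hI
    obtain ⟨⟨g1, g2, g3, g4, g5, g6, g7, g8⟩, g9⟩ := hn
    obtain ⟨g10, g11⟩ := g9 q a hq ha hqn
    have key : ∀ L : ℝ, Real.log n ≤ L → L ≤ Real.log n ^ 2 →
        (q : ℝ) * L ^ B ≤ q * Real.log n ^ (2 * B) := by
      intro L e1 e2
      apply mul_le_mul_of_nonneg_left _ (Nat.cast_nonneg q)
      rw [pow_mul]
      exact pow_le_pow_left₀ (by linarith) e2 B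
    rcases hI with hI | hI
    · obtain ⟨u, d, e1, e2, e3⟩ := g10
      rw [g1] at e3
      refine ⟨u, d, e1, e2.trans (key _ g3 g4), fun i hi => ?_⟩
      obtain ⟨e4, e5, e6⟩ := e3 i hi
      rw [hI]
      exact ⟨e4, e5.le, e6⟩
    · obtain ⟨u, d, e1, e2, e3⟩ := g11
      refine ⟨u, d, e1, e2.trans (key _ g6 g7), fun i hi => ?_⟩
      obtain ⟨e4, e5, e6⟩ := e3 i hi
      rw [hI]
      exact ⟨e4, e5.le, e6⟩
  · obtain ⟨B, h⟩ := Pool.Agent.Y677.KU.icc_hered s hs θ hθ l hl ε hε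
    refine ⟨2 * B, ?_⟩
    filter_upwards [transfer θ hθ h2 _ h] with n hn q a hq ha hqn I hI T hT
    obtain ⟨⟨g1, g2, g3, g4, g5, g6, g7, g8⟩, g9⟩ := hn
    obtain ⟨g10, g11⟩ := g9 q a hq ha hqn
    have hφ0 : (0 : ℝ) < Nat.totient q := by exact_mod_cast Nat.totient_pos.2 (by omega)
    have hn0 : (0 : ℝ) ≤ n := Nat.cast_nonneg _
    have key : ∀ L : ℝ, Real.log n ≤ L → L ≤ Real.log n ^ 2 →
        (q : ℝ) * L ^ B ≤ q * Real.log n ^ (2 * B) := by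
      intro L e1 e2
      apply mul_le_mul_of_nonneg_left _ (Nat.cast_nonneg q)
      rw [pow_mul]
      exact pow_le_pow_left₀ (by linarith) e2 B
    have key2 : ∀ L : ℝ, Real.log n ≤ L →
        ε * n / (Nat.totient q * L) ≤ ε * n / (Nat.totient q * Real.log n) := by
      intro L e1
      apply div_le_div_of_nonneg_left (by positivity) (by nlinarith)
      exact mul_le_mul_of_nonneg_left e1 hφ0.le
    have hTf : T.Finite := by
      rcases hI with hI | hI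
      · exact (Set.finite_Icc _ _).subset (fun m hm => by
          have := (hT hm).2
          rw [hI] at this
          exact this)
      · exact (Set.finite_Icc _ _).subset (fun m hm => by
          have := (hT hm).2
          rw [hI] at this
          exact this)
    have hmono : ∀ L : ℝ, Real.log n ≤ L → L ≤ Real.log n ^ 2 →
        (({m | m ∈ T ∧ ¬ InP T l (q * Real.log n ^ (2 * B)) m}.ncard : ℕ) : ℝ) ≤
        (({m | m ∈ T ∧ ¬ Pool.Agent.Y677.KU.InPr T l (q * L ^ B) m}.ncard : ℕ) : ℝ) := by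
      intro L e1 e2
      refine Nat.cast_le.2 (Set.ncard_le_ncard ?_ (hTf.subset fun m hm => hm.1))
      rintro m ⟨hm, hout⟩
      refine ⟨hm, fun ⟨u, d, k1, k2, k3, k4⟩ => hout ⟨u, d, k1, k2.trans (key L e1 e2), k3, k4⟩⟩
    rcases hI with hI | hI
    · refine (hmono _ g3 g4).trans ((g10 T ?_).trans (key2 _ g3))
      rw [g1]
      rw [hI] at hT
      exact hT
    · refine (hmono _ g6 g7).trans ((g11 T ?_).trans (key2 _ g6))
      rw [hI] at hT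
      exact hT

end Pool.Agent.Results.MP_a8fbd7_nt.AlmostPrimesInClasses
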