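import Pool.Agent.Y816.PD.UniJ

set_option autoImplicit false

/-!
# Almost primes with restricted digits in all subintervals of length `n ^ (1 / D)` of the Oppermann intervals

For every large `n` and every `u`, `y` with `n ^ 2 - n ≤ u`, `u + y ≤ n ^ 2 + n`, `n ≤ y ^ D`, the integers `m` with
`u < m < u + y` whose `i`-th digit in base `b` belongs to an arbitrary set `A i` for all `i < K` are considered;
`K` is the integer part of `log_b (y / 3)`.
-/

namespace Pool.Agent.Results.MP_a8fbd7_nt.RestrictedDigits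

open Finset Filter
open Pool.Agent.Y816.PD (NA DC AT PT)

/-- The almost primes of `(u, u + y)`: all prime factors `p` satisfy `p ^ r > z`, there are at most `r` of them. -/
def Almost (u y r z : ℕ) : Set ℕ := {m | (u < m ∧ m < u + y) ∧ (∀ p : ℕ, p.Prime → p ∣ m → z < p ^ r) ∧
  m.primeFactorsList.length ≤ r}

/-- The primes of `(u, u + y)`. -/
def Primes (u y : ℕ) : Set ℕ := {m | (u < m ∧ m < u + y) ∧ m.Prime}

/-- **Almost primes with restricted digits in all parts of the Oppermann intervals.** -/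
theorem result (D : ℕ) :
    ∃ c : ℝ, 0 < c ∧ ∃ r₀ : ℕ, 2 ≤ r₀ ∧ ∀ r : ℕ, r₀ ≤ r → ∀ b : ℕ, 2 ≤ b → ∃ κ C : ℝ, 0 < κ ∧ 0 < C ∧
      ∀ᶠ n : ℕ in atTop, ∀ u y : ℕ, n ^ 2 - n ≤ u → u + y ≤ n ^ 2 + n → n ≤ y ^ D →
        ∀ K : ℕ, K = Nat.log b (y / 3) →
        ∀ A : ℕ → Finset ℕ, (∀ i < K, A i ⊆ range b) → (b : ℝ) ^ K ≤ Real.exp (c * K) * NA K A →
        ((∃ d ∈ A 0, d.Coprime b) → κ * NA K A / (K : ℝ) ≤ DC b K A (Almost u y r (b ^ K))) ∧
        (DC b K A (Primes u y) : ℝ) ≤ C * NA K A / (K : ℝ) := by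
  obtain ⟨c, hc, r₀, hr₀, h⟩ := Pool.Agent.Y816.PD.uni_set {0} (fun p hp => ⟨1, by
    intro h hh
    rw [mem_singleton] at hh
    subst hh
    intro hd
    exact hp.one_lt.ne' (Nat.dvd_one.1 hd)⟩) 1 (card_singleton 0) le_rfl (4 * (3 * D))
  refine ⟨c, hc, r₀, hr₀, fun r hr b hb => ?_⟩
  obtain ⟨κ, C, hκ, hC, h1⟩ := h r hr b hb (3 * b)
  refine ⟨κ, C, hκ, hC, ?_⟩
  obtain ⟨K0, hK0⟩ := eventually_atTop.1 h1
  filter_upwards [eventually_ge_atTop ((3 * b ^ (K0 + 1)) ^ D + 2)] with n hn u y hu1 hu2 hny K hK A hA hprod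
  have hb0 : 0 < b := by omega
  have hy : 3 * b ^ (K0 + 1) ≤ y := by
    by_contra hcon
    push Not at hcon
    have := Nat.pow_le_pow_left hcon.le D
    omega
  obtain ⟨hKK, hb1, hb2⟩ := Pool.Agent.Y816.PD.log_three hb (K0 + 1) hy hK
  have e1 : y ≤ b ^ (4 * K) := by
    calc y ≤ 3 * b * b ^ K := hb2
      _ ≤ b ^ 2 * b * b ^ K := by
          apply Nat.mul_le_mul_right
          apply Nat.mul_le_mul_right
          nlinarith
      _ = b ^ (K + 3) := by ring
      _ ≤ b ^ (4 * K) := Nat.pow_le_pow_right hb0 (by omega)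
  have e2 : u ≤ b ^ (4 * (3 * D) * K) := by
    have hn2 : 2 ≤ n := by omega
    have e3 : u ≤ n ^ 3 := by
      have e4 : n ≤ n ^ 2 := Nat.le_self_pow (by norm_num) n
      have e5 : 2 * n ^ 2 ≤ n * n ^ 2 := Nat.mul_le_mul_right _ hn2
      have e6 : n * n ^ 2 = n ^ 3 := by ring
      omega
    calc u ≤ n ^ 3 := e3
      _ ≤ (y ^ D) ^ 3 := Nat.pow_le_pow_left hny 3
      _ = y ^ (3 * D) := by rw [← pow_mul]; congr 1; ring
      _ ≤ (b ^ (4 * K)) ^ (3 * D) := Nat.pow_le_pow_left e1 _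
      _ = b ^ (4 * (3 * D) * K) := by rw [← pow_mul]; congr 1; ring
  obtain ⟨h2, h3⟩ := hK0 K (by omega) {m | u < m ∧ m < u + y} u y y hb1 le_rfl hb2 e2
    (fun m h1 h2 => ⟨h1, h2⟩) (fun m hm => hm) A hA hprod
  rw [pow_one] at h2 h3
  constructor
  · rintro ⟨d, hd, hcop⟩
    refine (h2 ⟨d, hd, fun h hh => ?_⟩).trans (le_of_eq ?_)
    · rw [mem_singleton] at hh
      subst hh
      exact hcop
    · congr 2
      ext m
      unfold Pool.Agent.Y816.PD.AT Almost
      simp only [Set.mem_setOf_eq, mem_singleton, forall_eq, add_zero]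
      tauto
  · refine le_trans (le_of_eq ?_) h3
    congr 2
    ext m
    unfold Pool.Agent.Y816.PD.PT Primes
    simp only [Set.mem_setOf_eq, mem_singleton, forall_eq, add_zero]

end Pool.Agent.Results.MP_a8fbd7_nt.RestrictedDigits
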